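import Pool.Agent.Run7.h74.UC.Iface
import Pool.Agent.Q176.UM.MBx
import Pool.Agent.Q14.UM.EK

/-!
Project UC (helper74): piece BLM, moments of the blocks of large primes.
-/

set_option autoImplicit false

namespace Pool.Agent.Run7.h215.UC

open Filter Topology MeasureTheory Complex
open Pool.Agent.Q97.UM
open Pool.Agent.Run7.h74.UC

noncomputable section

/-- the power of one block times a Dirichlet polynomial is a Dirichlet polynomial -/
theorem zf_pow (hd : S_DPM) (D : ℝ) (hD : 0 ≤ D) (a a2 : ℕ → ℂ) (j r N : ℕ) (b : ℕ → ℂ)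
    (hb : ∀ n, N < n → b n = 0) (t : ℝ) :
    ‖zf D a a2 j t‖ ^ (2 * r) * ‖dp N b t‖ ^ 2 =
      ‖dp (Pool.Agent.Q14.UM.KB' D j ^ r * N) (cv (cvp (qb D a a2 j) r) b) t‖ ^ 2 := by
  have hq := Pool.Agent.Q14.UM.qb_len D a a2 j hD
  have h1 := Pool.Agent.Q14.UM.dp_cvp hd (qb D a a2 j) (Pool.Agent.Q14.UM.KB' D j) hq t r
  have h2 := hd.1 (Pool.Agent.Q14.UM.KB' D j ^ r) N (cvp (qb D a a2 j) r) b t
    (Pool.Agent.Q14.UM.cvp_len (qb D a a2 j) (Pool.Agent.Q14.UM.KB' D j) hq r) hb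
  rw [← h2, h1, norm_mul, norm_pow, mul_pow, ← pow_mul, mul_comm r 2]
  rfl

/-- the mean value on `[T/2, 3T]` -/
theorem mean_le (hM : S_MVL) (T : ℝ) (hT : 32 ≤ T) (M : ℕ) (hMT : (M : ℝ) ≤ (T / 2) ^ (1 / 4 : ℝ))
    (c : ℕ → ℂ) : ∫ t in (T / 2)..(3 * T), ‖dp M c t‖ ^ 2 ≤ 7 * T * N2 M c := by
  have hc : Continuous fun t : ℝ => ‖dp M c t‖ ^ 2 := by
    have h : Continuous (dp M c) := by
      unfold dp
      refine continuous_finsetSum _ fun n hn => ?_
      have hn1 : (n : ℂ) ≠ 0 := by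
        have := (Finset.mem_Icc.1 hn).1
        exact_mod_cast (by omega : n ≠ 0)
      refine Continuous.mul continuous_const ?_
      exact Continuous.const_cpow (by fun_prop) (Or.inl hn1)
    exact (h.norm).pow 2
  have hi : ∀ p q : ℝ, IntervalIntegrable (fun t : ℝ => ‖dp M c t‖ ^ 2) volume p q :=
    fun p q => hc.intervalIntegrable p q
  have hmono : ∀ S : ℝ, T / 2 ≤ S → (M : ℝ) ≤ S ^ (1 / 4 : ℝ) := fun S hS =>
    hMT.trans (Real.rpow_le_rpow (by linarith) hS (by norm_num))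
  have h1 := (hM (T / 2) (by linarith) M (hmono _ le_rfl) c).2
  have h2 := (hM T (by linarith) M (hmono _ (by linarith)) c).2
  have h3 := (hM (2 * T) (by linarith) M (hmono _ (by linarith)) c).2
  have e1 : 2 * (T / 2) = T := by ring
  rw [e1] at h1
  have h4 : ∫ t in (T / 2)..(3 * T), ‖dp M c t‖ ^ 2 ≤ ∫ t in (T / 2)..(2 * (2 * T)), ‖dp M c t‖ ^ 2 := by
    rw [← intervalIntegral.integral_add_adjacent_intervals (hi (T / 2) (3 * T)) (hi (3 * T) (2 * (2 * T)))]
    have : 0 ≤ ∫ t in (3 * T)..(2 * (2 * T)), ‖dp M c t‖ ^ 2 :=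
      intervalIntegral.integral_nonneg (by linarith) fun t _ => by positivity
    linarith
  have h5 : ∫ t in (T / 2)..(2 * (2 * T)), ‖dp M c t‖ ^ 2 =
      (∫ t in (T / 2)..T, ‖dp M c t‖ ^ 2) + (∫ t in T..(2 * T), ‖dp M c t‖ ^ 2) +
        ∫ t in (2 * T)..(2 * (2 * T)), ‖dp M c t‖ ^ 2 := by
    rw [intervalIntegral.integral_add_adjacent_intervals (hi _ _) (hi _ _),
      intervalIntegral.integral_add_adjacent_intervals (hi _ _) (hi _ _)]
  rw [h5] at h4
  linarith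

theorem t_BLM : J_BLM := by
  intro hP hd hM r
  obtain ⟨C, hC, hP⟩ := hP
  refine ⟨28 * (C * (r + 2)) ^ r, 1 / (8 * (2 * r + 1)), ?_, by positivity, ?_⟩
  · have h1 : (1 : ℝ) ≤ C * (r + 2) := by
      have h0 : (0 : ℝ) ≤ r := Nat.cast_nonneg r
      nlinarith
    have h2 := one_le_pow₀ (n := r) h1
    linarith
  intro δ hδ hδ2
  have hlog : ∀ᶠ T : ℝ in atTop, 1 ≤ δ * Real.log T := by
    have h := Real.tendsto_log_atTop.const_mul_atTop hδ
    exact h.eventually_ge_atTop 1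
  filter_upwards [hlog, eventually_ge_atTop (32 : ℝ)] with T hD hT
  intro a a2 ha ha2 N b hN hNT hb j
  set D : ℝ := δ * Real.log T with hDdef
  have hT0 : (0 : ℝ) < T := by linarith
  have hb' : ∀ n, N < n → b n = 0 := by
    intro n hn
    by_contra h
    have := (hb n h).2
    omega
  set M : ℕ := Pool.Agent.Q14.UM.KB' D j ^ r * N with hMdef
  set c : ℕ → ℂ := cv (cvp (qb D a a2 j) r) b with hcdef
  have hid : ∀ t : ℝ, ‖zf D a a2 j t‖ ^ (2 * r) * ‖dp N b t‖ ^ 2 = ‖dp M c t‖ ^ 2 :=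
    fun t => zf_pow hd D (by linarith) a a2 j r N b hb' t
  -- length
  have hr0 : (0 : ℝ) ≤ r := Nat.cast_nonneg r
  have hK : (Pool.Agent.Q14.UM.KB' D j : ℝ) ≤ T ^ (2 * δ) := by
    have h1 := Pool.Agent.Q14.UM.KB_le_M D j (by linarith)
    have h2 : (Pool.Agent.Q14.UM.KB' D j : ℝ) ≤ Real.exp (2 * D) :=
      (Nat.cast_le.2 h1).trans (Nat.floor_le (Real.exp_pos _).le)
    refine h2.trans (le_of_eq ?_)
    rw [Real.rpow_def_of_pos hT0, hDdef]
    congr 1
    ring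
  have hMT : (M : ℝ) ≤ (T / 2) ^ (1 / 4 : ℝ) := by
    have h1 : (M : ℝ) ≤ (T ^ (2 * δ)) ^ r * T ^ δ := by
      rw [hMdef]
      push_cast
      exact mul_le_mul (pow_le_pow_left₀ (Nat.cast_nonneg _) hK r) hNT (Nat.cast_nonneg _) (by positivity)
    have h2 : (T ^ (2 * δ)) ^ r * T ^ δ = T ^ ((2 * r + 1) * δ) := by
      rw [← Real.rpow_natCast, ← Real.rpow_mul hT0.le, ← Real.rpow_add hT0]
      congr 1
      ring
    have h3 : (2 * r + 1) * δ ≤ 1 / 8 := by
      have h4 : (2 * r + 1) * δ ≤ (2 * r + 1) * (1 / (8 * (2 * r + 1))) :=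
        mul_le_mul_of_nonneg_left hδ2 (by positivity)
      refine h4.trans (le_of_eq ?_)
      field_simp
    have h5 : T ^ ((2 * r + 1) * δ) ≤ T ^ (1 / 8 : ℝ) :=
      Real.rpow_le_rpow_of_exponent_le (by linarith) h3
    have h6 : T ^ (1 / 8 : ℝ) ≤ (T / 2) ^ (1 / 4 : ℝ) := by
      have h7 : T ^ (1 / 8 : ℝ) = (T ^ (1 / 2 : ℝ)) ^ (1 / 4 : ℝ) := by
        rw [← Real.rpow_mul hT0.le]
        norm_num
      rw [h7]
      refine Real.rpow_le_rpow (by positivity) ?_ (by norm_num)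
      rw [← Real.sqrt_eq_rpow]
      rw [Real.sqrt_le_left (by positivity)]
      nlinarith
    rw [h2] at h1
    exact h1.trans (h5.trans h6)
  have hmean := mean_le hM T hT M hMT c
  -- the mean value of the product
  have hPM := hP 1 D le_rfl hD a a2 ha ha2 N b hN hb j r
  have hMB : MB (fun t => ‖dp M c t‖ ^ 2)
      ((C * 1 ^ 2 * (Real.exp j * Real.log N / D + r + 1)) ^ r * (2 * N2 N b)) := by
    refine Pool.Agent.Q176.UM.MB.congr (fun t => ?_) hPM
    rw [← hid t, mul_comm]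
  have hN2 := Pool.Agent.Q176.UM.N2_le hM hMB
  have hN2n : 0 ≤ N2 N b := Pool.Agent.Q176.UM.N2_nn N b
  have hlogN : Real.log N ≤ D := by
    have h1 := Real.log_le_log (by exact_mod_cast hN : (0 : ℝ) < N) hNT
    rwa [Real.log_rpow hT0] at h1
  have hlogN0 : 0 ≤ Real.log N := Real.log_natCast_nonneg N
  have hexp : 1 ≤ Real.exp (j : ℝ) := Real.one_le_exp (Nat.cast_nonneg j)
  have hb1 : C * 1 ^ 2 * (Real.exp j * Real.log N / D + r + 1) ≤ C * (r + 2) * Real.exp j := by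
    have h1 : Real.exp j * Real.log N / D ≤ Real.exp j := by
      rw [div_le_iff₀ (by linarith)]
      exact mul_le_mul_of_nonneg_left hlogN (Real.exp_pos _).le
    have h2 : Real.exp j * Real.log N / D + r + 1 ≤ (r + 2) * Real.exp j := by nlinarith
    calc C * 1 ^ 2 * (Real.exp j * Real.log N / D + r + 1)
        = C * (Real.exp j * Real.log N / D + r + 1) := by ring
      _ ≤ C * ((r + 2) * Real.exp j) := mul_le_mul_of_nonneg_left h2 (by linarith)
      _ = C * (r + 2) * Real.exp j := by ring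
  have hb0 : 0 ≤ C * 1 ^ 2 * (Real.exp j * Real.log N / D + r + 1) := by
    have : 0 ≤ Real.exp j * Real.log N / D := by positivity
    have : 0 ≤ C := by linarith
    positivity
  have hpow : (C * 1 ^ 2 * (Real.exp j * Real.log N / D + r + 1)) ^ r ≤
      (C * (r + 2)) ^ r * Real.exp (r * j) := by
    refine (pow_le_pow_left₀ hb0 hb1 r).trans (le_of_eq ?_)
    rw [mul_pow, ← Real.exp_nat_mul]
  have hN2' : N2 M c ≤ 4 * ((C * (r + 2)) ^ r * Real.exp (r * j)) * N2 N b := by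
    refine hN2.trans ?_
    have := mul_le_mul_of_nonneg_right hpow hN2n
    linarith
  have hint : ∫ t in (T / 2)..(3 * T), ‖zf D a a2 j t‖ ^ (2 * r) * ‖dp N b t‖ ^ 2 =
      ∫ t in (T / 2)..(3 * T), ‖dp M c t‖ ^ 2 := by
    congr 1
    funext t
    exact hid t
  rw [hint]
  refine hmean.trans ?_
  have h9 := mul_le_mul_of_nonneg_left hN2' (by linarith : (0 : ℝ) ≤ 7 * T)
  refine h9.trans (le_of_eq ?_)
  ring

end

end Pool.Agent.Run7.h215.UC
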